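import Mathlib
import Pool.Agent.H477.O.Stm

set_option autoImplicit false

/-! # Project O, `S_OLINE`: from the lines at distance `δ` to the critical line -/

open Complex Filter Topology Metric Set MeasureTheory
open scoped ComplexConjugate

namespace Pool.Agent.H115.O

open Pool.Agent.H477.O

theorem pt_shift (y u v : ℝ) : pt y u v = pt (y + v) u 0 := by
  apply Complex.ext
  · rw [pt_re, pt_re]
  · rw [pt_im, pt_im, add_zero]

theorem pt_refl (y u v : ℝ) : 1 - conj (pt y (-u) v) = pt y u v := by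
  apply Complex.ext
  · rw [Complex.sub_re, Complex.one_re, Complex.conj_re, pt_re, pt_re]
    ring
  · rw [Complex.sub_im, Complex.one_im, Complex.conj_im, pt_im, pt_im]
    ring

theorem norm_refl {X : ℂ → ℂ} {a K M ℓ y : ℝ} (h : OB X a K M ℓ y) (y' u v : ℝ) :
    ‖X (pt y' (-u) v)‖ = ‖X (pt y' u v)‖ := by
  obtain ⟨ε, hε, hfe⟩ := h.fe
  rw [hfe (pt y' (-u) v), norm_mul, hε, one_mul, pt_refl, Complex.norm_conj]

theorem OLINE (hstrip : S_STRIP) (hcmp : S_OCMP) : S_OLINE := by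
  intro a K e δ he hδ hδ1
  obtain ⟨a1, ha1⟩ : ∃ a1, a1 = max 1 a := ⟨_, rfl⟩
  have h1a : 1 ≤ a1 := by
    rw [ha1]
    exact le_max_left _ _
  have haa : a ≤ a1 := by
    rw [ha1]
    exact le_max_right _ _
  obtain ⟨A, hA⟩ : ∃ A, A = a1 + 1 := ⟨_, rfl⟩
  have hA2 : 2 ≤ A := by linarith
  refine ⟨2 * A, by linarith, ?_⟩
  intro D hD
  obtain ⟨E, hE, hEc⟩ := hcmp a K D (2 * A) hD (by linarith)
  obtain ⟨w, hw⟩ : ∃ w, w = Real.log E + D * Real.log (1 + 2 * A) * (δ + e) := ⟨_, rfl⟩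
  refine ⟨max 1 (max (K * (2 + 4 * A ^ 2)) (w / e)), le_max_left _ _, ?_⟩
  intro X S' c σ Mf lf y₀ hF hℓ hX
  have hb := hF.base y₀
  have hM := hb.hM
  have hK := hb.hK
  have hℓ1 : 1 ≤ lf y₀ := (le_max_left _ _).trans hℓ
  have hℓ2 : K * (2 + 4 * A ^ 2) ≤ lf y₀ :=
    ((le_max_left _ _).trans (le_max_right _ _)).trans hℓ
  have hℓ3 : w ≤ lf y₀ * e := by
    have h1 : w / e ≤ lf y₀ := ((le_max_right _ _).trans (le_max_right _ _)).trans hℓ
    rwa [div_le_iff₀ he] at h1
  have hlog : 0 ≤ Real.log (1 + 2 * A) := Real.log_nonneg (by linarith)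
  -- the right side
  have hside : ∀ v : ℝ, |v| ≤ 2 * A →
      ‖X (pt y₀ δ v)‖ ≤ Mf y₀ * Real.exp (lf y₀ * (δ + 2 * e)) := by
    intro v hv
    have h1 := hX (y₀ + v) (by rw [add_sub_cancel_left]; exact hv)
    rw [← pt_shift] at h1
    have h2 : Mf (y₀ + v) ≤ E * Mf y₀ := by
      apply hEc X S' c σ Mf lf y₀ hF
      rw [add_sub_cancel_left]
      exact hv
    have h3 : lf (y₀ + v) ≤ lf y₀ + D * Real.log (1 + 2 * A) := by
      have h4 := hF.lip y₀ (y₀ + v)
      rw [add_sub_cancel_left] at h4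
      have h5 : Real.log (1 + |v|) ≤ Real.log (1 + 2 * A) :=
        Real.log_le_log (by positivity) (by linarith)
      nlinarith [mul_le_mul_of_nonneg_left h5 (by linarith : (0 : ℝ) ≤ D)]
    have hEpos : 0 < E := by linarith
    calc ‖X (pt y₀ δ v)‖ ≤ Mf (y₀ + v) * Real.exp (lf (y₀ + v) * (δ + e)) := h1
      _ ≤ (E * Mf y₀) * Real.exp ((lf y₀ + D * Real.log (1 + 2 * A)) * (δ + e)) := by
          apply mul_le_mul h2 _ (Real.exp_pos _).le (by positivity)
          rw [Real.exp_le_exp]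
          exact mul_le_mul_of_nonneg_right h3 (by linarith)
      _ = Mf y₀ * Real.exp (Real.log E + (lf y₀ + D * Real.log (1 + 2 * A)) * (δ + e)) := by
          rw [Real.exp_add, Real.exp_log hEpos]
          ring
      _ ≤ Mf y₀ * Real.exp (lf y₀ * (δ + 2 * e)) := by
          apply mul_le_mul_of_nonneg_left _ hM.le
          rw [Real.exp_le_exp]
          rw [hw] at hℓ3
          nlinarith
  have hmain := hstrip X hb.diff y₀ δ A 1 (a1 + 1) (lf y₀) (Mf y₀ * Real.exp (lf y₀ * (δ + 2 * e)))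
    hδ (by linarith) zero_le_one (by linarith) (by positivity) (by nlinarith)
    (fun v hv => ⟨hside v hv, by
      rw [norm_refl hb]
      exact hside v hv⟩)
    (by
      intro u v hu hv
      have h1 := hb.up u v
      refine h1.trans ?_
      rw [mul_assoc, ← Real.exp_add]
      apply mul_le_mul_of_nonneg_left _ hM.le
      rw [Real.exp_le_exp]
      have hu2 : u ^ 2 ≤ 1 := by
        rw [← sq_abs]
        have := abs_nonneg u
        nlinarith
      have hv2 : v ^ 2 ≤ 4 * A ^ 2 := by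
        rw [← sq_abs]
        have := abs_nonneg v
        nlinarith
      have hmax : max |u| a ≤ a1 := max_le (by linarith) haa
      have h2 : lf y₀ * max |u| a ≤ lf y₀ * a1 := mul_le_mul_of_nonneg_left hmax (by linarith)
      have h3 : K * (1 + u ^ 2 + v ^ 2) ≤ K * (2 + 4 * A ^ 2) :=
        mul_le_mul_of_nonneg_left (by linarith) (by linarith)
      have h4 : 0 ≤ lf y₀ * (δ + 2 * e) := by positivity
      nlinarith)
    0 0 (by rw [abs_zero]; exact hδ.le) (by rw [abs_zero]; linarith)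
  refine hmain.trans ?_
  rw [mul_assoc, ← Real.exp_add]
  apply mul_le_mul_of_nonneg_left _ hM.le
  rw [Real.exp_le_exp]
  have h5 : δ ^ 2 ≤ δ := by nlinarith
  nlinarith [mul_le_mul_of_nonneg_left h5 (by linarith : (0 : ℝ) ≤ lf y₀)]

end Pool.Agent.H115.O
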